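import Pool.Agent.X112.HP.Stm

set_option autoImplicit false

noncomputable section

namespace Pool.Agent.X112.HP

open Finset

variable {n m : ℕ}

/-- zero pattern -/
def pat (A : Fin m → Matrix (Fin n) (Fin n) ℝ) (k : Fin m) : Matrix (Fin n) (Fin n) ℕ :=
  open Classical in fun i j => if 0 < A k i j then 1 else 0

/-- the multiplier -/
def Mult (n m : ℕ) : ℕ := 2 * n * Bd ((m + 1) ^ (2 * n)) m (2 * n)

/-- the colour vector -/
def colourVector (A : Fin m → Matrix (Fin n) (Fin n) ℝ) (o : Fin n) (k : Fin m) : ℕ :=
  Mult n m * (∑ t ∈ range (2 * n), (1 + ∑ k, pat A k) ^ t * pat A k *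
    (1 + ∑ k, pat A k) ^ (2 * n - 1 - t)) o o

theorem P_nonneg (A : Fin m → Matrix (Fin n) (Fin n) ℝ) (hA : ∀ k i j, 0 ≤ A k i j)
    (w : List (Fin m)) (i j : Fin n) : 0 ≤ P A w i j := by
  induction w generalizing i j with
  | nil =>
    simp only [P, List.map_nil, List.prod_nil, Matrix.one_apply]
    split_ifs <;> norm_num
  | cons k w ih =>
    simp only [P, List.map_cons, List.prod_cons, Matrix.mul_apply]
    exact Finset.sum_nonneg fun l _ => mul_nonneg (hA k i l) (ih l j)

theorem P_append (A : Fin m → Matrix (Fin n) (Fin n) ℝ) (v w : List (Fin m)) :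
    P A (v ++ w) = P A v * P A w := by
  simp [P]

theorem pos_append (A : Fin m → Matrix (Fin n) (Fin n) ℝ) (hA : ∀ k i j, 0 ≤ A k i j)
    {v w : List (Fin m)} {i l j : Fin n} (h1 : 0 < P A v i l) (h2 : 0 < P A w l j) :
    0 < P A (v ++ w) i j := by
  rw [P_append, Matrix.mul_apply]
  refine lt_of_lt_of_le (mul_pos h1 h2) ?_
  exact Finset.single_le_sum (f := fun l => P A v i l * P A w l j)
    (fun l _ => mul_nonneg (P_nonneg A hA v i l) (P_nonneg A hA w l j)) (Finset.mem_univ l)

theorem P_cons_pos (A : Fin m → Matrix (Fin n) (Fin n) ℝ) (hA : ∀ k i j, 0 ≤ A k i j)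
    (k : Fin m) (w : List (Fin m)) (i j : Fin n) :
    0 < P A (k :: w) i j ↔ ∃ l, 0 < A k i l ∧ 0 < P A w l j := by
  have e : P A (k :: w) i j = ∑ l, A k i l * P A w l j := by
    simp only [P, List.map_cons, List.prod_cons, Matrix.mul_apply]
  rw [e]
  constructor
  · intro h
    by_contra hcon
    push Not at hcon
    have : ∑ l, A k i l * P A w l j = 0 := by
      refine Finset.sum_eq_zero fun l _ => ?_
      rcases (hA k i l).eq_or_lt with h0 | h0
      · rw [← h0]; simp
      · have := hcon l h0
        have := P_nonneg A hA w l j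
        have h1 : P A w l j = 0 := by linarith
        rw [h1]; simp
    linarith
  · rintro ⟨l, h1, h2⟩
    refine lt_of_lt_of_le (mul_pos h1 h2) ?_
    exact Finset.single_le_sum (f := fun l => A k i l * P A w l j)
      (fun l _ => mul_nonneg (hA k i l) (P_nonneg A hA w l j)) (Finset.mem_univ l)

theorem used_of_mem (A : Fin m → Matrix (Fin n) (Fin n) ℝ) (hA : ∀ k i j, 0 ≤ A k i j)
    {w : List (Fin m)} {k : Fin m} (hk : k ∈ w) {i j : Fin n} (h : 0 < P A w i j) :
    ∃ i j, 0 < A k i j := by
  induction w generalizing i with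
  | nil => simp at hk
  | cons x w ih =>
    obtain ⟨l, h1, h2⟩ := (P_cons_pos A hA x w i j).1 h
    rcases List.mem_cons.1 hk with rfl | hk
    · exact ⟨i, l, h1⟩
    · exact ih hk h2

/-- product of patterns along a lazy word -/
def QL (A : Fin m → Matrix (Fin n) (Fin n) ℝ) (L : List (Option (Fin m))) :
    Matrix (Fin n) (Fin n) ℕ := (L.map (fun x => x.elim 1 (pat A))).prod

theorem QL_pos (A : Fin m → Matrix (Fin n) (Fin n) ℝ) (hA : ∀ k i j, 0 ≤ A k i j)
    (L : List (Option (Fin m))) (i j : Fin n) :
    0 < QL A L i j ↔ 0 < P A L.reduceOption i j := by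
  induction L generalizing i with
  | nil =>
    simp only [QL, P, List.map_nil, List.prod_nil, List.reduceOption_nil, Matrix.one_apply]
    split_ifs <;> simp
  | cons x L ih =>
    rcases x with _ | k
    · have e : QL A (none :: L) = QL A L := by simp [QL]
      rw [e, List.reduceOption_cons_of_none]
      exact ih i
    · have e : QL A (some k :: L) i j = ∑ l, pat A k i l * QL A L l j := by
        simp [QL, Matrix.mul_apply]
      rw [e, List.reduceOption_cons_of_some, P_cons_pos A hA, Finset.sum_pos_iff]
      constructor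
      · rintro ⟨l, _, h⟩
        have h1 : 0 < pat A k i l := Nat.pos_of_mul_pos_right h |> fun h => h
        have h2 : 0 < QL A L l j := Nat.pos_of_mul_pos_left h |> fun h => h
        refine ⟨l, ?_, (ih l).1 h2⟩
        by_contra h3
        simp [pat, h3] at h1
      · rintro ⟨l, h1, h2⟩
        refine ⟨l, Finset.mem_univ l, Nat.mul_pos ?_ ((ih l).2 h2)⟩
        simp [pat, h1]

theorem count_reduce (L : List (Option (Fin m))) (k : Fin m) :
    L.reduceOption.count k = L.count (some k) := by
  induction L with
  | nil => simp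
  | cons x L ih =>
    rcases x with _ | y
    · rw [List.reduceOption_cons_of_none, ih, List.count_cons]
      simp
    · rw [List.reduceOption_cons_of_some, List.count_cons, List.count_cons, ih]
      simp

theorem sum_count (w : List (Fin m)) : ∑ k : Fin m, w.count k = w.length := by
  induction w with
  | nil => simp
  | cons x w ih =>
    simp only [List.count_cons, Finset.sum_add_distrib, ih, List.length_cons]
    simp

theorem count_ofFn {α : Type} [DecidableEq α] [BEq α] [LawfulBEq α] (l : ℕ) (u : Fin l → α)
    (x : α) :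
    (List.ofFn u).count x = (univ.filter (fun t => u t = x)).card := by
  induction l with
  | zero => simp
  | succ l ih =>
    rw [List.ofFn_succ, List.count_cons, ih, Fin.univ_succ, Finset.filter_cons]
    have e : (Finset.filter (fun t => u t = x)
        (Finset.map ⟨Fin.succ, Fin.succ_injective _⟩ univ)).card =
        (univ.filter (fun t : Fin l => u t.succ = x)).card := by
      rw [Finset.filter_map, Finset.card_map]
      rfl
    split_ifs with h1 h2 h2
    · rw [Finset.card_cons, e]
    · exact absurd (by simpa using h1) h2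
    · exact absurd (by simpa using h2) h1
    · rw [e, add_zero]

theorem reduce_map_some (w : List (Fin m)) : (w.map some).reduceOption = w := by
  induction w with
  | nil => simp
  | cons x w ih => rw [List.map_cons, List.reduceOption_cons_of_some, ih]

theorem exists_pad (L : ℕ) (w : List (Fin m)) (h : w.length ≤ L) :
    ∃ u : Fin L → Option (Fin m), (List.ofFn u).reduceOption = w := by
  have hlen : (w.map some ++ List.replicate (L - w.length) none).length = L := by
    simp
    omega
  refine ⟨fun t => (w.map some ++ List.replicate (L - w.length) none)[t.1]'(by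
    rw [hlen]; exact t.2), ?_⟩
  have e : List.ofFn (fun t : Fin L => (w.map some ++ List.replicate (L - w.length) none)[t.1]'(by
    rw [hlen]; exact t.2)) = w.map some ++ List.replicate (L - w.length) none := by
    apply List.ext_getElem
    · rw [List.length_ofFn, hlen]
    · intro i h1 h2
      simp
  rw [e, List.reduceOption_append]
  have e1 := reduce_map_some w
  have e2 : ∀ r, (List.replicate r (none : Option (Fin m))).reduceOption = [] := by
    intro r
    induction r with
    | zero => simp
    | succ r ih => rw [List.replicate_succ, List.reduceOption_cons_of_none, ih]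
  rw [e1, e2, List.append_nil]

/-- counts of closed words at `o` -/
def closedM (A : Fin m → Matrix (Fin n) (Fin n) ℝ) (hA : ∀ k i j, 0 ≤ A k i j) (o : Fin n) :
    AddSubmonoid (Fin m → ℕ) where
  carrier := {v | ∃ w : List (Fin m), 0 < P A w o o ∧ ∀ k, w.count k = v k}
  zero_mem' := ⟨[], by simp [P], by simp⟩
  add_mem' := by
    rintro a b ⟨v, hv, hv'⟩ ⟨w, hw, hw'⟩
    exact ⟨v ++ w, pos_append A hA hv hw, fun k => by
      rw [List.count_append, hv', hw']; rfl⟩

theorem Bd_mono {N N' M M' H : ℕ} (h1 : N ≤ N') (h2 : M ≤ M') : Bd N M H ≤ Bd N' M' H := by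
  unfold Bd
  have h3 : M.factorial ≤ M'.factorial := Nat.factorial_le h2
  have h4 : (H + 1) ^ M ≤ (H + 1) ^ M' := Nat.pow_le_pow_right (by omega) h2
  gcongr

theorem cv_eq (hFOR : S_FOR) (A : Fin m → Matrix (Fin n) (Fin n) ℝ) (o : Fin n) (k : Fin m) :
    colourVector A o k = Mult n m * ∑ u : Fin (2 * n) → Option (Fin m),
      (List.ofFn u).count (some k) * QL A (List.ofFn u) o o := by
  unfold colourVector
  rw [← hFOR n m (2 * n) (pat A) k, Matrix.sum_apply]
  congr 1
  refine Finset.sum_congr rfl fun u _ => ?_
  have h1 := count_ofFn (2 * n) u (some k)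
  rw [h1, Matrix.smul_apply, smul_eq_mul]
  congr 2
  unfold QL
  rw [List.map_ofFn]
  rfl

theorem main (hHUR : S_HUR) (hSHO : S_SHO) (hLAT : S_LAT) (hBND : S_BND) (hFOR : S_FOR)
    (A : Fin m → Matrix (Fin n) (Fin n) ℝ) (hA : ∀ k i j, 0 ≤ A k i j) (o : Fin n)
    (β : Fin m → ℕ) (hβ : 1 ≤ ∑ k, β k) (hprim : ∀ i j, 0 < hurwitz A β i j) :
    1 ≤ ∑ k, colourVector A o k ∧ ∀ i j, 0 < hurwitz A (colourVector A o) i j := by
  classical
  have hn : 1 ≤ n := by have := o.2; omega
  have hw : ∀ i j, ∃ w : List (Fin m), (∀ k, w.count k = β k) ∧ 0 < P A w i j :=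
    fun i j => (hHUR n m A hA β i j).1 (hprim i j)
  have hconn : ∀ i j, ∃ w : List (Fin m), w.length < n ∧ 0 < P A w i j := by
    intro i j
    obtain ⟨w, _, h⟩ := hw i j
    exact hSHO n m A hA i j ⟨w, h⟩
  choose r hr using fun i => hconn o i
  choose s hs using fun i => hconn i o
  -- used colours
  let κ := {k : Fin m // ∃ i j, 0 < A k i j}
  let ι := {u : Fin (2 * n) → Option (Fin m) // 0 < P A (List.ofFn u).reduceOption o o}
  have : Fintype κ := Fintype.ofFinite κ
  have : Fintype ι := Fintype.ofFinite ι
  let g : ι → κ → ℤ := fun u k => ((List.ofFn u.1).count (some k.1) : ℤ)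
  have hgH : ∀ i k, |g i k| ≤ ((2 * n : ℕ) : ℤ) := by
    intro u k
    show |((List.ofFn u.1).count (some k.1) : ℤ)| ≤ _
    rw [abs_of_nonneg (Int.natCast_nonneg _)]
    have := List.count_le_length (a := some k.1) (l := List.ofFn u.1)
    rw [List.length_ofFn] at this
    exact_mod_cast this
  have hspan : AddSubgroup.closure (Set.range g) = ⊤ := by
    have hunit : ∀ k : κ, (Pi.single k 1 : κ → ℤ) ∈ AddSubgroup.closure (Set.range g) := by
      intro k
      have h1 := hLAT n m A hA o r s hr hs β hw k.1 k.2
      let φ : (Fin m → ℤ) →+ (κ → ℤ) :=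
        { toFun := fun v k => v k.1
          map_zero' := rfl
          map_add' := fun _ _ => rfl }
      have h2 : φ (Pi.single k.1 1) = (Pi.single k 1 : κ → ℤ) := by
        funext l
        show (Pi.single k.1 (1 : ℤ) : Fin m → ℤ) l.1 = _
        by_cases h : l = k
        · rw [h]; simp
        · rw [Pi.single_eq_of_ne h, Pi.single_eq_of_ne (fun h' => h (Subtype.ext h'))]
      rw [← h2]
      have h3 : AddSubgroup.closure {v | ∃ w : List (Fin m), w.length ≤ 2 * n ∧ 0 < P A w o o ∧
          v = cnt w} ≤ (AddSubgroup.closure (Set.range g)).comap φ := by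
        rw [AddSubgroup.closure_le]
        rintro v ⟨w, hw1, hw2, rfl⟩
        obtain ⟨u, hu⟩ := exists_pad (2 * n) w hw1
        refine AddSubgroup.subset_closure ⟨⟨u, by rw [hu]; exact hw2⟩, ?_⟩
        funext l
        show ((List.ofFn u).count (some l.1) : ℤ) = (w.count l.1 : ℤ)
        rw [← count_reduce, hu]
      exact h3 h1
    rw [eq_top_iff]
    intro v _
    have : v = ∑ k, v k • (Pi.single k 1 : κ → ℤ) := by
      funext l
      rw [Finset.sum_apply]
      simp only [Pi.smul_apply, Pi.single_apply, smul_eq_mul, mul_ite, mul_one, mul_zero]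
      rw [Finset.sum_ite_eq]
      simp
    rw [this]
    exact AddSubgroup.sum_mem _ fun k _ => AddSubgroup.zsmul_mem _ (hunit k) _
  choose b hb1 hb2 using hBND ι κ g (2 * n) hgH hspan
  set B0 := Bd ((m + 1) ^ (2 * n)) m (2 * n) with hB0
  have hb3 : ∀ k i, |b k i| ≤ (B0 : ℤ) := by
    intro k i
    refine (hb2 k i).trans ?_
    have hcι : Fintype.card ι ≤ (m + 1) ^ (2 * n) := by
      have h1 := Fintype.card_le_of_injective (fun u : ι => u.1) Subtype.val_injective
      simpa using h1
    have hcκ : Fintype.card κ ≤ m := by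
      have h1 := Fintype.card_le_of_injective (fun u : κ => u.1) Subtype.val_injective
      simpa using h1
    exact_mod_cast Bd_mono hcι hcκ
  have hcv := cv_eq hFOR A o
  have hB1 : 1 ≤ B0 := by
    rw [hB0]
    unfold Bd
    have := Nat.factorial_pos m
    have : 0 < (2 * n + 1) ^ m := by positivity
    exact Nat.succ_le_of_lt (by positivity)
  have hM : Mult n m = 2 * n * B0 := rfl
  have hM1 : 1 ≤ Mult n m := by
    rw [hM]
    have : 0 < 2 * n * B0 := by positivity
    exact this
  constructor
  · -- some used colour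
    obtain ⟨w, hw1, hw2⟩ := hw o o
    have hlen : w ≠ [] := by
      rintro rfl
      have : ∑ k, β k = 0 := Finset.sum_eq_zero fun k _ => by rw [← hw1 k]; simp
      omega
    obtain ⟨k, hk⟩ := List.exists_mem_of_ne_nil w hlen
    obtain ⟨i, j, hij⟩ := used_of_mem A hA hk hw2
    have hc1 : 0 < P A (r i ++ (k :: s j)) o o :=
      pos_append A hA (hr i).2 ((P_cons_pos A hA k (s j) i o).2 ⟨j, hij, (hs j).2⟩)
    obtain ⟨u, hu⟩ := exists_pad (2 * n) (r i ++ (k :: s j)) (by
      rw [List.length_append, List.length_cons]
      have := (hr i).1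
      have := (hs j).1
      omega)
    have h1 : 1 ≤ (List.ofFn u).count (some k) * QL A (List.ofFn u) o o := by
      refine Nat.mul_pos ?_ ((QL_pos A hA _ _ _).2 (by rw [hu]; exact hc1))
      rw [← count_reduce, hu]
      exact List.count_pos_iff.2 (by simp)
    have h2 : 1 ≤ colourVector A o k := by
      rw [hcv k]
      refine Nat.mul_pos hM1 ?_
      refine lt_of_lt_of_le h1 ?_
      exact Finset.single_le_sum (f := fun u : Fin (2 * n) → Option (Fin m) =>
        (List.ofFn u).count (some k) * QL A (List.ofFn u) o o) (fun _ _ => Nat.zero_le _)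
        (Finset.mem_univ u)
    exact h2.trans (Finset.single_le_sum (f := fun k => colourVector A o k)
      (fun _ _ => Nat.zero_le _) (Finset.mem_univ k))
  · intro i j
    rw [hHUR n m A hA]
    let c : ι → ℤ := fun u => ∑ k : κ, (((s i).count k.1 : ℤ) + (r j).count k.1) * b k u
    have hlen : ∑ k : κ, (((s i).count k.1 : ℤ) + (r j).count k.1) ≤ 2 * n := by
      have h1 : ∀ w : List (Fin m), ∑ k : κ, (w.count k.1 : ℤ) ≤ w.length := by
        intro w
        have h2 : ∑ k : κ, w.count k.1 ≤ ∑ k : Fin m, w.count k := by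
          have h0 := Finset.sum_subtype (univ.filter (fun k : Fin m => ∃ i j, 0 < A k i j))
            (F := (inferInstance : Fintype κ)) (p := fun k : Fin m => ∃ i j, 0 < A k i j) (by simp) (fun k => w.count k)
          refine le_trans (le_of_eq h0.symm) ?_
          exact Finset.sum_le_sum_of_subset (Finset.subset_univ _)
        have h3 : ∑ k : Fin m, w.count k = w.length := sum_count w
        rw [h3] at h2
        exact_mod_cast h2
      rw [Finset.sum_add_distrib]
      have h4 := h1 (s i)
      have h5 := h1 (r j)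
      have h6 := (hs i).1
      have h7 := (hr j).1
      omega
    have hcb : ∀ u, |c u| ≤ (Mult n m : ℤ) := by
      intro u
      calc |c u| ≤ ∑ k : κ, |(((s i).count k.1 : ℤ) + (r j).count k.1) * b k u| :=
            Finset.abs_sum_le_sum_abs _ _
        _ ≤ ∑ k : κ, (((s i).count k.1 : ℤ) + (r j).count k.1) * B0 := by
            refine Finset.sum_le_sum fun k _ => ?_
            rw [abs_mul, abs_of_nonneg (by positivity)]
            have := hb3 k u
            gcongr
        _ = (∑ k : κ, (((s i).count k.1 : ℤ) + (r j).count k.1)) * B0 := by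
            rw [Finset.sum_mul]
        _ ≤ (2 * n) * B0 := by gcongr
        _ = (Mult n m : ℤ) := by rw [hM]; push_cast; ring
    have hQ1 : ∀ u : ι, 1 ≤ QL A (List.ofFn u.1) o o := fun u =>
      (QL_pos A hA _ _ _).2 u.2
    let N : ι → ℕ := fun u => (Mult n m * QL A (List.ofFn u.1) o o - c u : ℤ).toNat
    have hN : ∀ u, (N u : ℤ) = Mult n m * QL A (List.ofFn u.1) o o - c u := by
      intro u
      refine Int.toNat_of_nonneg ?_
      have h1 := (abs_le.1 (hcb u)).2
      have h2 : (1 : ℤ) ≤ QL A (List.ofFn u.1) o o := by exact_mod_cast hQ1 u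
      have h3 : (0 : ℤ) ≤ Mult n m := Int.natCast_nonneg _
      nlinarith
    have hmem : (∑ u : ι, N u • (fun k : Fin m => (List.ofFn u.1).count (some k))) ∈
        closedM A hA o := by
      refine AddSubmonoid.sum_mem _ fun u _ => AddSubmonoid.nsmul_mem _ ?_ _
      exact ⟨(List.ofFn u.1).reduceOption, u.2, fun k => count_reduce _ _⟩
    obtain ⟨w, hw1, hw2⟩ := hmem
    have hpos : 0 < P A (s i ++ (w ++ r j)) i j :=
      pos_append A hA (hs i).2 (pos_append A hA hw1 (hr j).2)
    refine ⟨s i ++ (w ++ r j), fun k => ?_, hpos⟩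
    by_cases hk : ∃ i j, 0 < A k i j
    · have hsumall : ∑ u : Fin (2 * n) → Option (Fin m),
          ((List.ofFn u).count (some k) * QL A (List.ofFn u) o o : ℕ) =
          ∑ u : ι, (List.ofFn u.1).count (some k) * QL A (List.ofFn u.1) o o := by
        have h0 := Finset.sum_subtype (univ.filter (fun u : Fin (2 * n) → Option (Fin m) =>
            0 < P A (List.ofFn u).reduceOption o o)) (F := (inferInstance : Fintype ι))
          (p := fun u : Fin (2 * n) → Option (Fin m) => 0 < P A (List.ofFn u).reduceOption o o)
          (by simp) (fun u => (List.ofFn u).count (some k) * QL A (List.ofFn u) o o)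
        refine Eq.trans ?_ h0
        symm
        refine Finset.sum_subset (Finset.subset_univ _) fun u _ hu => ?_
        have h1 : ¬ 0 < QL A (List.ofFn u) o o := by
          intro h
          apply hu
          rw [Finset.mem_filter]
          exact ⟨Finset.mem_univ _, (QL_pos A hA _ _ _).1 h⟩
        have h2 : QL A (List.ofFn u) o o = 0 := by omega
        rw [h2, mul_zero]
      have hkey : ∑ u : ι, c u * g u ⟨k, hk⟩ = ((s i).count k : ℤ) + (r j).count k := by
        have h1 : ∀ u, c u * g u ⟨k, hk⟩ = ∑ l : κ, (((s i).count l.1 : ℤ) + (r j).count l.1) *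
            (b l u * g u ⟨k, hk⟩) := by
          intro u
          show (∑ l : κ, (((s i).count l.1 : ℤ) + (r j).count l.1) * b l u) * _ = _
          rw [Finset.sum_mul]
          refine Finset.sum_congr rfl fun l _ => by ring
        simp only [h1]
        rw [Finset.sum_comm]
        have h2 : ∀ l : κ, ∑ u : ι, b l u * g u ⟨k, hk⟩ = (Pi.single l 1 : κ → ℤ) ⟨k, hk⟩ := by
          intro l
          have := congrFun (hb1 l) ⟨k, hk⟩
          rw [Finset.sum_apply] at this
          simpa using this
        simp only [← Finset.mul_sum, h2]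
        rw [Finset.sum_eq_single (⟨k, hk⟩ : κ)]
        · simp
        · intro l _ hl
          rw [Pi.single_eq_of_ne (fun h => hl h.symm)]
          simp
        · intro h
          exact absurd (Finset.mem_univ _) h
      have hwk : (w.count k : ℤ) = ∑ u : ι, (N u : ℤ) * g u ⟨k, hk⟩ := by
        rw [hw2 k, Finset.sum_apply]
        push_cast
        refine Finset.sum_congr rfl fun u _ => ?_
        simp only [Pi.smul_apply, smul_eq_mul]
        push_cast
        rfl
      have hfinal : ((s i ++ (w ++ r j)).count k : ℤ) = colourVector A o k := by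
        rw [List.count_append, List.count_append, hcv k, hsumall]
        push_cast
        rw [hwk]
        simp only [hN, sub_mul, Finset.sum_sub_distrib]
        rw [hkey, Finset.mul_sum]
        have : ∀ u : ι, (Mult n m : ℤ) * (QL A (List.ofFn u.1) o o : ℤ) * g u ⟨k, hk⟩ =
            (Mult n m : ℤ) * (((List.ofFn u.1).count (some k) : ℤ) * (QL A (List.ofFn u.1) o o : ℤ)) := by
          intro u
          show (Mult n m : ℤ) * (QL A (List.ofFn u.1) o o : ℤ) * ((List.ofFn u.1).count (some k) : ℤ) = _
          ring
        simp only [this]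
        ring
      exact_mod_cast hfinal
    · have h1 : (s i ++ (w ++ r j)).count k = 0 := by
        rw [List.count_eq_zero]
        intro h
        exact hk (used_of_mem A hA h hpos)
      have h2 : pat A k = 0 := by
        funext i j
        have : ¬ 0 < A k i j := fun h => hk ⟨i, j, h⟩
        simp [pat, this]
      rw [h1]
      unfold colourVector
      rw [h2]
      simp

end Pool.Agent.X112.HP
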