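import Mathlib

set_option autoImplicit false

/-! Project HP (MP_9c2350_lc): explicit colour vector with positive Hurwitz product.
All parts are elementary. Prove `theorem t_XXX : Pool.Agent.X112.HP.S_XXX` in
`Pool/Agent/X<you>/HP/XXX.lean` (import only this file), land it, set the part to done. -/

noncomputable section

namespace Pool.Agent.X112.HP

open Finset

/-- product of the matrices along a colour word -/
def P {n m : ℕ} (A : Fin m → Matrix (Fin n) (Fin n) ℝ) (w : List (Fin m)) :
    Matrix (Fin n) (Fin n) ℝ := (w.map A).prod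

/-- Hurwitz product -/
def hurwitz {n m : ℕ} (A : Fin m → Matrix (Fin n) (Fin n) ℝ) (α : Fin m → ℕ) :
    Matrix (Fin n) (Fin n) ℝ :=
  ∑ d ∈ (univ : Finset (Fin (∑ k, α k) → Fin m)).filter
    (fun d => ∀ k, (univ.filter (fun t => d t = k)).card = α k), P A (List.ofFn d)

/-- Parikh vector -/
def cnt {m : ℕ} (w : List (Fin m)) (k : Fin m) : ℤ := w.count k

/-- Part HUR: an entry of the Hurwitz product of nonnegative matrices is positive iff some colour
word with these colour counts has a positive entry there.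
Proof: a finite sum of nonnegative numbers is positive iff one is; words `w` with
`count k w = α k` for all `k` have length `∑ α k` (`List.length_eq_sum_count`-like) and are
`List.ofFn d`. -/
def S_HUR : Prop := ∀ (n m : ℕ) (A : Fin m → Matrix (Fin n) (Fin n) ℝ),
  (∀ k i j, 0 ≤ A k i j) → ∀ (α : Fin m → ℕ) (i j : Fin n),
  0 < hurwitz A α i j ↔ ∃ w : List (Fin m), (∀ k, w.count k = α k) ∧ 0 < P A w i j

/-- Part SHO: if `j` is reachable from `i` (some word has a positive entry), then it is reachable
by a word of length `< n`.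
Proof: take a shortest word; its vertex path has no repetition (otherwise cut out the loop), so it
has at most `n` vertices. -/
def S_SHO : Prop := ∀ (n m : ℕ) (A : Fin m → Matrix (Fin n) (Fin n) ℝ),
  (∀ k i j, 0 ≤ A k i j) → ∀ (i j : Fin n), (∃ w, 0 < P A w i j) →
  ∃ w : List (Fin m), w.length < n ∧ 0 < P A w i j

/-- Part LAT: lattice argument. `o` is a root vertex, all vertices are reachable from `o` and
reach `o` by short words, and for some `α` every pair `(i, j)` is joined by a word with colour
counts `α`. Then for every colour `k` that occurs, the unit vector `e_k` is in the group generated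
by the Parikh vectors of the closed words at `o` of length `≤ 2 n`.
Proof: let `L` be this group, `r_i` (`s_i`) short words `o → i` (`i → o`), and put
`c(i) = cnt (r_i)` mod `L`. For an edge `i → j` of colour `k`:
`cnt r_i + e_k + cnt s_j ∈ L` (length `≤ n-1 + 1 + n-1`) and `cnt r_j + cnt s_j ∈ L`, so
`e_k ≡ cnt r_j - cnt r_i`. Hence for every word `w` from `i` to `j`: `cnt w ≡ cnt r_j - cnt r_i`
(induction on `w`). With the hypothesis: `α ≡ cnt r_j - cnt r_i` for all `i, j`; `i = j` gives
`α ≡ 0`, so `cnt r_j ≡ cnt r_i` for all `i, j`, so `e_k ≡ 0`. -/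
def S_LAT : Prop := ∀ (n m : ℕ) (A : Fin m → Matrix (Fin n) (Fin n) ℝ),
  (∀ k i j, 0 ≤ A k i j) → ∀ (o : Fin n) (r s : Fin n → List (Fin m)),
  (∀ i, (r i).length < n ∧ 0 < P A (r i) o i) → (∀ i, (s i).length < n ∧ 0 < P A (s i) i o) →
  ∀ (α : Fin m → ℕ), (∀ i j, ∃ w : List (Fin m), (∀ k, w.count k = α k) ∧ 0 < P A w i j) →
  ∀ k, (∃ i j, 0 < A k i j) →
    (Pi.single k 1 : Fin m → ℤ) ∈ AddSubgroup.closure
      {v | ∃ w : List (Fin m), w.length ≤ 2 * n ∧ 0 < P A w o o ∧ v = cnt w}

/-- bound for the coefficients -/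
def Bd (N M H : ℕ) : ℕ := (M + 1) * (M.factorial * (H + 1) ^ M) * (1 + N * (M.factorial * (H + 1) ^ M) * (H + 1))

/-- Part BND: if the integer vectors `g i` (entries at most `H` in absolute value) generate
`ℤ^κ`, every unit vector is an integer combination with coefficients at most
`Bd |ι| |κ| H`.
Proof: choose a subset (an injective `τ : κ → ι`) with `D = det (g (τ k) l) ≠ 0`
(`|D| ≤ M! H^M` by `Matrix.det_le`). Write `e = ∑ b_i g_i`; for `i` outside the range of `τ` replace `b_i` by
`b_i mod D`: since `D g_i` is an integer combination of the `g (τ k)` (Cramer / adjugate), the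
difference is an integer combination of the `g (τ k)`. So `e - ∑_{i not in range τ} r_i g_i =
∑_k c_k g (τ k)` with `0 ≤ r_i < |D|`, and by Cramer's rule
`|c_k| ≤ |D c_k| ≤ M * (M! H^M) * (1 + N |D| H)`. -/
def S_BND : Prop := ∀ (ι κ : Type) [Fintype ι] [Fintype κ] [DecidableEq ι] [DecidableEq κ]
  (g : ι → κ → ℤ) (H : ℕ), (∀ i k, |g i k| ≤ H) →
  AddSubgroup.closure (Set.range g) = ⊤ →
  ∀ k, ∃ b : ι → ℤ, (∑ i, b i • g i = Pi.single k 1) ∧
    ∀ i, |b i| ≤ Bd (Fintype.card ι) (Fintype.card κ) H

/-- Part FOR: product rule. For matrices over a commutative semiring with `S = ∑_k A_k`: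
the sum over lazy words `u : Fin l → Option (Fin m)` of `#{t | u t = some k}` times the product of
the `B (u t)` (`B none = 1`, `B (some k) = A k`) is `∑_{t < l} (1+S)^t A_k (1+S)^(l-1-t)`.
Proof: induction on `l` (`Fin.consEquiv` / `Fin.snocEquiv`), using
`∑_u ∏ B (u t) = (1 + S)^l`. -/
def S_FOR : Prop := ∀ (n m l : ℕ) (A : Fin m → Matrix (Fin n) (Fin n) ℕ) (k : Fin m),
  ∑ u : Fin l → Option (Fin m), (univ.filter (fun t => u t = some k)).card •
      (List.ofFn (fun t => (u t).elim 1 A)).prod =
    ∑ t ∈ range l, (1 + ∑ k, A k) ^ t * A k * (1 + ∑ k, A k) ^ (l - 1 - t)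

end Pool.Agent.X112.HP
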